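import Pool.Agent.Helper42.FR.Stmts

/-! Sheet FR, row CF: good approximations. -/

set_option autoImplicit false

namespace Pool.Agent.Helper27.FR

open Pool.Agent.Helper42.FR

theorem st_CF : ST_CF := by
  intro N
  have key : ∀ N : ℕ, ∃ q k : ℕ, N ≤ q ∧ 1 ≤ q ∧ k ≤ q ∧ 4 * k * q + k * k + 1 = q * q := by
    intro N
    induction N with
    | zero => exact ⟨1, 0, by omega, le_rfl, by omega, by norm_num⟩
    | succ N ih =>
      obtain ⟨q, k, h1, h2, h3, h4⟩ := ih
      refine ⟨17 * q + 4 * k, 4 * q + k, by omega, by omega, by omega, ?_⟩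
      nlinarith
  obtain ⟨q, k, h1, h2, h3, h4⟩ := key N
  refine ⟨q, k, h1, h3, h4, ?_⟩
  have hq : (0 : ℝ) < q := by exact_mod_cast h2
  have h5 : 4 * (k : ℝ) * q + k * k + 1 = q * q := by exact_mod_cast h4
  have hk : (0 : ℝ) ≤ k := Nat.cast_nonneg k
  have h6 : (k : ℝ) / q + 2 ≤ Real.sqrt 5 := by
    apply Real.le_sqrt_of_sq_le
    have h7 : ((k : ℝ) / q + 2) ^ 2 = (k * k + 4 * k * q) / (q * q) + 4 := by
      field_simp
      ring
    rw [h7]
    have h8 : ((k : ℝ) * k + 4 * k * q) / (q * q) ≤ 1 := by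
      rw [div_le_one (by positivity)]
      linarith
    linarith
  linarith

end Pool.Agent.Helper27.FR
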